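import Pool.Agent.R919.FF.Hodge

/-!
# MP_ffcd14_ag: the standard conjecture of Hodge type for the products of an arbitrary variety with all
but few members of a family with independent Frobenius eigenvalues

Let `X_i`, for `i` in any set of indices, be ordinary elliptic curves over an algebraic closure of a
finite field with pairwise different quadratic fields (which means that they are pairwise not
isogenous). Or, more generally, let the `X_i` be varieties whose Frobenius eigenvalues are
independent (a product of elements of the groups generated by the eigenvalues of different members
can only be, up to a root, a power of `p` if each factor is), and let each `X_i` be a curve of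
maximal rank (the Frobenius eigenvalues on `H^1` are simple, and they have no relations but those
which come from duality), or a variety such that the formula of Tate holds for all powers of `X_i`.

Let `Q` be a product of powers `X_i ^ n_i` of different members, polarized by a sum of pull-backs of
polarizations of the `X_i ^ n_i` for which the standard conjecture of Hodge type holds; this is
no condition if `X_i ^ n_i` is a curve, for example for the products of different elliptic curves.

* The standard conjecture of Hodge type and the conjecture `D` hold for all such `Q`.
* Let `U` be **any** variety, and let `R` be the rank modulo `p` of the group generated by the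
  eigenvalues of Frobenius on its cohomology. There is a set `S` of at most `R` indices such that
  for all `Q` as above whose factors are powers of the `X_i` with `i ∉ S`, and for all polarized
  varieties `T` whose eigenvalues are generated by those of `U` up to powers of `p` and roots
  (for example all powers of `U`), the standard conjecture of Hodge type holds for `Q × T` **if and
  only if** it holds for `T`, and the same is true for the standard conjectures `A` and `D`.

Nothing is assumed on `U`. The bound is sharp: take for `U` a product of `R` of the elliptic curves.

The proof works in the rational vector space of the nonzero numbers modulo the powers of `p`. The spans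
of the classes of the eigenvalues of the different members are independent subspaces, and at most
`R` of them have to be left out in order that the sum of the other ones meets the span for `U` only in
zero. Then a relation between the eigenvalues of `Q` and of `T` is trivial, so that the classes of
the cycles on `Q × T` are sums of external products, and the Lefschetz decomposition of the product
gives the sign.
-/

set_option autoImplicit false

open CategoryTheory AlgebraicGeometry

universe u v w

namespace Pool.Agent.Results.MP_ffcd14_ag.FewExceptionalFactors

open Pool.Agent.H914 Pool.Agent.W534 VarClass Obj WeilCohomology Pool.Agent.H281R3.HT
  Pool.Agent.R919.FF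

theorem result {k : Type u} [Field k] {𝒱 : VarClass k} {ops : CycleOps 𝒱}
    (W : WeilCohomology.{u, v} ops) [IsAlgClosed W.K] (σ : W.K →+* ℂ) (p : ℕ)
    (hp : p.Prime) (Φ : FrobSystem W p) (hRH : ∀ Z : 𝒱.Obj, RiemannHyp Φ σ Z)
    {I : Type w} (X : I → 𝒱.Obj) (hfam : IndependentFamily Φ σ X) :
    (∀ (F : Finset I) (Q : Polarized 𝒱), IsMixedPol W X F Q →
      HodgeType W Q.X Q.D ∧ HomEqNum W Q.X) ∧
    ∀ (U : 𝒱.Obj) (R : ℕ), RankModLe p (eigenvalues Φ σ U) R →
      ∃ S : Finset I, S.card ≤ R ∧ ∀ (F : Finset I) (Q : Polarized 𝒱), IsMixedPol W X F Q →
        Disjoint F S → ∀ T : Polarized 𝒱, GeneratedBy Φ σ U T.X → T.X.IsCyc 1 T.D →
          HardLefschetz W T.X T.D → StandardIff W Q T :=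
  final_hodge W σ p hp Φ hRH X hfam

end Pool.Agent.Results.MP_ffcd14_ag.FewExceptionalFactors
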