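import Pool.Agent.R911.Iso.Final

open CategoryTheory AlgebraicGeometry

universe u v

namespace Pool.Agent.Results.MP_ffcd14_ag.FiniteIsometryGroups

open Pool.Agent.H914 Pool.Agent.H914.VarClass Pool.Agent.H914.VarClass.Obj
  Pool.Agent.H281R3.HT Pool.Agent.W539.Ker Pool.Agent.R911.Iso

/-- **The standard conjecture of Hodge type as the finiteness of groups of integral isometries.**
Let `X` be a variety with a divisor `D` which satisfies hard Lefschetz and the Lefschetz standard
conjecture, and let the operations on cycles preserve integral cycles. Then the star operator `s`
exists and is unique, and the following are equivalent: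
(1) the standard conjecture of Hodge type (modulo numerical equivalence) for `X × X`;
(2) up to numerical equivalence there are only finitely many isometries with integral coefficients
of the sum of three copies of the motive of `X`;
(3) the same for the sum of `m` copies, for all `m`. -/
theorem result {k : Type u} [Field k] {𝒱 : VarClass k} {ops : CycleOps 𝒱}
    (hI : IntegralOps ops)
    (W : WeilCohomology.{u, v} ops) (X : 𝒱.Obj) (D : X.Cycles) (hD : X.IsCyc 1 D)
    (hHL : HardLefschetz W X D) (hB : LefschetzB W X D) :
    (∃! s, IsStar W X D s) ∧ ∀ s, IsStar W X D s →
      List.TFAE [HodgeStandard W (X.prod X) (boxSum ops D), FinitelyManyIsometries W X s 3,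
        ∀ m, FinitelyManyIsometries W X s m] :=
  ⟨star_existsUnique hD hHL hB, fun _ hs => finite_criterion hI hD hHL hB hs⟩

end Pool.Agent.Results.MP_ffcd14_ag.FiniteIsometryGroups
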