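import Pool.Agent.R909.IdxC

/-!
# MP_ffcd14_ag: the conjecture of Hodge type is a Hodge index formula

Let `N ^ l (X)` be the space of the cycles of codimension `l` with rational coefficients on a smooth
projective variety `X` modulo numerical equivalence, and `ρ_l` its dimension. The Hodge index formula for
a variety `X` of even dimension `2 j` is the formula

  `signature of the intersection form on N ^ j (X) = ρ_0 - ρ_1 + ρ_2 - ⋯ + ρ_(2 j)`.

It contains no polarization, no cohomology and no primitive classes. For `j = 2` it is the formula
`(ρ_2 - ρ_1 + 1, ρ_1 - 1)` for the signature, which is known to be equivalent to the conjecture of Hodge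
type for a fourfold.

**Theorem.** Let `k` be an uncountable algebraically closed field (or any algebraically closed field, and
`i ≤ 2`). The following are equivalent.

1. For all smooth projective varieties `X` over `k` and all `j ≤ i` with `2 j ≤ n = dim X`: the product
   with any `n - 2 j` ample divisors is an isomorphism `N ^ j (X) → N ^ (n - j) (X)`, and the (mixed)
   Hodge-Riemann relations hold on `N ^ j (X)`; in particular the conjecture of Hodge type holds for `X`
   in codimension `j`, for all ample divisors, and the numerical form of the conjecture `A` holds.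
2. The Hodge index formula holds for all smooth projective varieties over `k` of dimension `2 j`,
   `1 ≤ j ≤ i`.

The Lean statement is for a set `𝒮` of varieties and sets `Amp X` of divisors which behave like the sets of
all ample divisors (`IsNumAmpleSystem`, see there), for which the weak Lefschetz theorem holds modulo
numerical equivalence for some hyperplane section of every `X` (`HasLefschetzSection`; known for `j ≤ 2`,
and for very general hyperplane sections if `k` is uncountable).

Proof. By `Pool.Agent.R910.Num.numerical` (hand-in MP_361a6f_ag.NumericalHodgeIndex), 1 follows from the conjecture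
of Hodge type for one polarization in the middle codimension. If 1 holds in the codimensions `< j` and
`dim X = 2 j`, `D` ample, then `N ^ j (X)` is the orthogonal sum of the `D ^ (j - l) P ^ l`, `l ≤ j`, with
`P ^ l` the primitive part of `N ^ l (X)`, of dimension `ρ_l - ρ_(l - 1)`; the form is definite of sign
`(-1) ^ l` for `l < j`. So its signature is the sum of the `(-1) ^ l (ρ_l - ρ_(l - 1))`, `l < j`, and of the
signature on `P ^ j`; and `∑_{l ≤ j} (-1) ^ l (ρ_l - ρ_(l - 1)) = ∑_{l ≤ 2 j} (-1) ^ l ρ_l`, because
`ρ_l = ρ_(2 j - l)`. Hence the index formula says that the form on `P ^ j` is definite of sign `(-1) ^ j`.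
-/

open CategoryTheory AlgebraicGeometry

universe u v

namespace Pool.Agent.Results.MP_ffcd14_ag.HodgeIndexFormula

open Pool.Agent.H914 Pool.Agent.R910.Num Pool.Agent.R909

/-- **The numerical conjectures of Lefschetz and Hodge type are equivalent to the Hodge index formula
for all varieties of even dimension.** -/
theorem result {k : Type u} [Field k] {𝒱 : VarClass k} {ops : CycleOps 𝒱}
    (W : WeilCohomology.{u, v} ops) (𝒮 : Set 𝒱.Obj) (Amp : ∀ X : 𝒱.Obj, Set X.Cycles) (i : ℕ)
    (hS : IsNumAmpleSystem ops 𝒮 Amp i)
    (hL : ∀ X ∈ 𝒮, ∀ j, 1 ≤ j → j ≤ i → 2 * j < X.dim →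
      HasLefschetzSection ops 𝒮 Amp X (j - 1)) :
    (∀ X ∈ 𝒮, ∀ j ≤ i, 2 * j ≤ X.dim →
      MixedNumLefschetz ops X (Amp X) j ∧ MixedNumHodgeRiemann ops X (Amp X) j) ↔
    ∀ X ∈ 𝒮, ∀ j, 1 ≤ j → j ≤ i → X.dim = 2 * j → HodgeIndexFormula ops X j :=
  numerical_iff_index W hS hL

end Pool.Agent.Results.MP_ffcd14_ag.HodgeIndexFormula
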