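import Pool.Agent.R911.Iso.Final

open CategoryTheory AlgebraicGeometry

universe u v

namespace Pool.Agent.Results.MP_ffcd14_ag.RiemannForIsometries

open Pool.Agent.H914 Pool.Agent.H914.VarClass Pool.Agent.H914.VarClass.Obj
  Pool.Agent.H281R3.HT Pool.Agent.W539.Ker Pool.Agent.R911.Iso

/-- **The standard conjecture of Hodge type is a Riemann hypothesis for algebraic isometries.**
Let `X` be a variety with a divisor `D` which satisfies hard Lefschetz and the Lefschetz standard
conjecture. Then the star operator `s` exists and is unique, and the following are equivalent: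
(1) the standard conjecture of Hodge type (modulo numerical equivalence) for `X × X`;
(2) self-adjoint correspondences of degree zero on `X` have only real eigenvalues, and
skew-adjoint ones only purely imaginary eigenvalues;
(3) algebraic isometries of `H(X) ^ 2` satisfy the Riemann hypothesis: all conjugates of all their
eigenvalues have absolute value one;
(4) the same for `H(X) ^ m` and all `m`. -/
theorem result {k : Type u} [Field k] {𝒱 : VarClass k} {ops : CycleOps 𝒱}
    (W : WeilCohomology.{u, v} ops) (X : 𝒱.Obj) (D : X.Cycles) (hD : X.IsCyc 1 D)
    (hHL : HardLefschetz W X D) (hB : LefschetzB W X D) :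
    (∃! s, IsStar W X D s) ∧ ∀ s, IsStar W X D s →
      List.TFAE [HodgeStandard W (X.prod X) (boxSum ops D), RealSpectrum W X s,
        IsometriesRiemann W X s 2, ∀ m, IsometriesRiemann W X s m] :=
  ⟨star_existsUnique hD hHL hB, fun _ hs => spectral_criterion hD hHL hB hs⟩

end Pool.Agent.Results.MP_ffcd14_ag.RiemannForIsometries
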